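import Pool.Agent.Run7.h933.INVS.Fin

/-!
# Q1 for sets invariant under a small group of dilations

Let `A ⊆ ℤ/N` have density `α` and let `x = log (2/α)`. Suppose that multiplication by a root of unity `g` of order
`m` modulo `N` (`Φ_m(g) = 0` in `ℤ/N`) maps `A` onto itself, that `φ(m) ≥ C x ^ 4` and that all prime factors of `N`
are larger than `φ(m) ^ φ(m)`. Then `2A - 2A = ℤ/N`, the conclusion of Q1 with the empty set of frequencies, and even
`|A + A| ≥ (1 - η) N` if `φ(m) ≥ C (x (x + log (1/η)) / η) ^ 2`. The same holds for the sets with `b A = A` for an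
integer `b ≥ 2` if the logarithms of all prime factors of `N` are at least `C x ^ 4 log b`. If the small divisors of
`N` divide `N₁`, then `2A - 2A` contains the subgroup `N₁ (ℤ/N)`, and the conclusion of Q1 holds if
`log N₁ ≤ B log (1/α) log (2 + log (1/α))`.

These are special cases of a criterion for the orbits of the frequencies under the dilations that preserve `A`: every
orbit has to contain `C x ^ 4` dissociated elements.

The proof. Let `g(y)` be the proportion of the pairs `(a, a') ∈ A × A` with `a + a' + y ∈ A + A`. The set `P` of ALL the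
almost periods of `g` (in the supremum norm) is invariant under the dilations that preserve `A`. It contains
the set of almost periods of the Croot-Sisask argument (starting library `N142.CD`), so it has density
`exp (- O(x ^ 4))`. Its large spectrum is invariant too. By Chang's theorem the spectrum has no more than
`O(x ^ 4)` dissociated elements, so it consists of `0` alone. Hence `g` is almost constant, so `g(y)` is
close to `g(0) = 1` for all `y`; the mean of `g` is `|A + A| / N`.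
-/

set_option autoImplicit false

namespace Pool.Agent.Results.MP_169871_nt.DilationInvariant

open Pool.Agent.Run7.h933
open scoped Pointwise

/-- The Bohr set `B(Γ, ε) = {x ∈ ℤ/N : ‖γ x / N‖ ≤ ε for all γ ∈ Γ}`; the norm is the distance to the nearest
integer. -/
def bohr {N : ℕ} (Γ : Finset (ZMod N)) (ε : ℝ) : Set (ZMod N) :=
  {x | ∀ γ ∈ Γ, |((γ * x).val : ℝ) / (N : ℝ) - ((round (((γ * x).val : ℝ) / (N : ℝ)) : ℤ) : ℝ)| ≤ ε}

/-- The set `2A - 2A`. -/
def twoAMinusTwoA {N : ℕ} (A : Finset (ZMod N)) : Set (ZMod N) :=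
  {x | ∃ a₁ ∈ A, ∃ a₂ ∈ A, ∃ a₃ ∈ A, ∃ a₄ ∈ A, x = a₁ + a₂ - a₃ - a₄}

/-- `log (1/α)` for the density `α = |A| / N` -/
noncomputable def logDens {N : ℕ} (A : Finset (ZMod N)) : ℝ := Real.log ((N : ℝ) / (A.card : ℝ))

/-- `log (2/α)` for the density `α = |A| / N` -/
noncomputable def logDens2 {N : ℕ} (A : Finset (ZMod N)) : ℝ :=
  Real.log (2 * (N : ℝ) / (A.card : ℝ))

/-- `(log (2/α) log (2/(η α)) / η) ^ 2` for the density `α = |A| / N` -/
noncomputable def weight {N : ℕ} (A : Finset (ZMod N)) (η : ℝ) : ℝ :=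
  (logDens2 A * Real.log (2 * (N : ℝ) / (η * (A.card : ℝ))) / η) ^ 2

/-- Every nonzero frequency `γ` has at least `D` dissociated elements `v γ` in its orbit under the invertible
dilations `v` with `v A = A`. -/
def RichOrbits {N : ℕ} (A : Finset (ZMod N)) (D : ℝ) : Prop :=
  ∀ γ : ZMod N, γ ≠ 0 → ∃ V : Finset (ZMod N),
    (∀ v ∈ V, IsUnit v ∧ ∀ a, v * a ∈ A ↔ a ∈ A) ∧
    (∀ e : ZMod N → ℤ, (∀ v, e v = 0 ∨ e v = 1 ∨ e v = -1) →
      ∑ v ∈ V, (e v : ZMod N) * (v * γ) = 0 → ∀ v ∈ V, e v = 0) ∧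
    D ≤ V.card

/-- **Q1 for sets invariant under a small group of dilations.** (1) sets with rich orbits: Fourier coefficients and
iterated sumsets, growth of `A + A`, and `2A - 2A = A + A + A + A = ℤ/N`; (2) sets invariant under multiplication by
a root of unity; (3) sets invariant under multiplication by an integer `b ≥ 2`. -/
theorem result : ∃ C : ℝ, 1 ≤ C ∧
    (∀ N : ℕ, 0 < N → ∀ (A : Finset (ZMod N)) (D : ℝ), A.Nonempty → RichOrbits A D →
      (8 * Real.log (4 * (N : ℝ) / (A.card : ℝ)) < D →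
        (∀ γ : ZMod N, γ ≠ 0 →
          ‖∑ a ∈ A, Complex.exp (2 * Real.pi * Complex.I * ((γ * a).val : ℂ) / (N : ℂ))‖ <
            (A.card : ℝ) / 2) ∧
        ∀ k : ℕ, (N : ℝ) ≤ 2 ^ k * A.card → ∀ y : ZMod N,
          ∃ a : Fin (k + 2) → ZMod N, (∀ i, a i ∈ A) ∧ ∑ i, a i = y) ∧
      (∀ K η : ℝ, 1 ≤ K → 0 < η → η ≤ 1 → ((A + A).card : ℝ) ≤ K * A.card →
        C * (logDens2 A + (Real.log (2 * K) * Real.log (2 * K / η) / η) ^ 2) ≤ D →
        (1 - η) * N ≤ (A + A).card) ∧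
      (C * logDens2 A ^ 4 ≤ D → twoAMinusTwoA A = Set.univ ∧
        ∀ y : ZMod N, ∃ a₁ ∈ A, ∃ a₂ ∈ A, ∃ a₃ ∈ A, ∃ a₄ ∈ A, y = a₁ + a₂ + a₃ + a₄)) ∧
    (∀ N : ℕ, 0 < N → ∀ (A : Finset (ZMod N)) (g : ZMod N) (m : ℕ), A.Nonempty → 0 < m →
      Polynomial.aeval g (Polynomial.cyclotomic m ℤ) = 0 → (∀ a, g * a ∈ A ↔ a ∈ A) →
      (∀ η : ℝ, 0 < η → η ≤ 1 → (∀ q : ℕ, q.Prime → q ∣ N → m.totient ^ m.totient < q) →
        C * weight A η ≤ m.totient → (1 - η) * N ≤ (A + A).card) ∧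
      ((∀ q : ℕ, q.Prime → q ∣ N → m.totient ^ m.totient < q) →
        C * logDens2 A ^ 4 ≤ m.totient → twoAMinusTwoA A = Set.univ) ∧
      (∀ N₁ : ℕ, (∀ d : ℕ, d ∣ N → d ∣ N₁ ∨ m.totient ^ m.totient < d) →
        C * logDens2 A ^ 4 ≤ m.totient → (∀ z : ZMod N, (N₁ : ZMod N) * z ∈ twoAMinusTwoA A) ∧
        ∀ B : ℝ, 0 ≤ B → N₁ ∣ N → (A.card : ℝ) / N ≤ 1 / 2 →
          Real.log N₁ ≤ B * (logDens A * Real.log (2 + logDens A)) →
          ∃ (Γ : Finset (ZMod N)) (ε : ℝ), (Γ.card : ℝ) ≤ (3 + B) * logDens A ∧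
            1 / 22 / logDens A ≤ ε ∧ bohr Γ ε ⊆ twoAMinusTwoA A)) ∧
    (∀ N : ℕ, 0 < N → ∀ (A : Finset (ZMod N)) (b : ℕ), A.Nonempty → 2 ≤ b → Nat.Coprime b N →
      (∀ a, (b : ZMod N) * a ∈ A ↔ a ∈ A) →
      (∀ η : ℝ, 0 < η → η ≤ 1 →
        (∀ q : ℕ, q.Prime → q ∣ N → C * weight A η * Real.log b ≤ Real.log q) →
        (1 - η) * N ≤ (A + A).card) ∧
      ((∀ q : ℕ, q.Prime → q ∣ N → C * logDens2 A ^ 4 * Real.log b ≤ Real.log q) →
        twoAMinusTwoA A = Set.univ) ∧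
      (∀ N₁ : ℕ, (∀ d : ℕ, d ∣ N → d ∣ N₁ ∨ C * logDens2 A ^ 4 * Real.log b ≤ Real.log d) →
        (∀ z : ZMod N, (N₁ : ZMod N) * z ∈ twoAMinusTwoA A) ∧
        ∀ B : ℝ, 0 ≤ B → N₁ ∣ N → (A.card : ℝ) / N ≤ 1 / 2 →
          Real.log N₁ ≤ B * (logDens A * Real.log (2 + logDens A)) →
          ∃ (Γ : Finset (ZMod N)) (ε : ℝ), (Γ.card : ℝ) ≤ (3 + B) * logDens A ∧
            1 / 22 / logDens A ≤ ε ∧ bohr Γ ε ⊆ twoAMinusTwoA A)) := by
  obtain ⟨C₁, hC₁, h1⟩ := INVS.gn_lower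
  obtain ⟨C₂, hC₂, h2⟩ := INVS.pointwise
  obtain ⟨C₃, hC₃, h3⟩ := INVS.roots
  obtain ⟨C₄, hC₄, h4⟩ := INVS.dilation
  have hconcl : ∀ (N : ℕ) [NeZero N] (A : Finset (ZMod N)) (N₁ : ℕ), A.Nonempty →
      (∀ z : ZMod N, (N₁ : ZMod N) * z ∈ twoAMinusTwoA A) →
      ∀ B : ℝ, 0 ≤ B → N₁ ∣ N → (A.card : ℝ) / N ≤ 1 / 2 →
          Real.log N₁ ≤ B * (logDens A * Real.log (2 + logDens A)) →
          ∃ (Γ : Finset (ZMod N)) (ε : ℝ), (Γ.card : ℝ) ≤ (3 + B) * logDens A ∧
            1 / 22 / logDens A ≤ ε ∧ bohr Γ ε ⊆ twoAMinusTwoA A := by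
    intro N _ A N₁ hA hz B hB hN₁ hα hlog
    obtain ⟨Γ, ε, -, h6, h7, h8⟩ := INVS.concl A N₁ B hA hα hN₁ hB hz hlog
    refine ⟨Γ, ε, h6, ?_, fun y hy => h8 y fun γ hγ => hy γ hγ⟩
    rw [div_div]
    exact h7
  have hdiv : ∀ (N : ℕ) (P : ℕ → Prop), (∀ d e : ℕ, 0 < d → d ≤ e → P d → P e) → 0 < N →
      (∀ q : ℕ, q.Prime → q ∣ N → P q) → ∀ d : ℕ, d ∣ N → d = 1 ∨ P d := by
    intro N P hP hN h d hd
    rcases eq_or_ne d 1 with h5 | h5
    · left; exact h5
    · right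
      obtain ⟨q, hq, hqd⟩ := Nat.exists_prime_and_dvd h5
      exact hP q d hq.pos (Nat.le_of_dvd (Nat.pos_of_dvd_of_pos hd hN) hqd)
        (h q hq (hqd.trans hd))
  set C := C₁ + 145 * C₂ + C₃ + C₄ with hC
  have e1 : C₁ ≤ C := by linarith
  have e2 : 145 * C₂ ≤ C := by linarith
  have e3 : C₃ ≤ C := by linarith
  have e4 : C₄ ≤ C := by linarith
  refine ⟨C, by linarith, ?_, ?_, ?_⟩
  · intro N hN A D hA hr
    have : NeZero N := ⟨hN.ne'⟩
    have hx := INVS.lx_ge A hA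
    have hlog2 := Real.log_two_gt_d9
    refine ⟨fun hD => ?_, fun K η hK hη hη1 hAA hD => ?_, fun hD => ?_⟩
    · have hc : ∀ γ : ZMod N, γ ≠ 0 → ‖Pool.Agent.N142.CD.FOU.hh A γ‖ < (A.card : ℝ) / 2 := by
        intro γ hγ
        obtain ⟨V, h5, h6, h7⟩ := hr γ hγ
        exact INVS.coeff_small A hA γ V h5 h6 (lt_of_lt_of_le hD h7)
      refine ⟨fun γ hγ => ?_, fun k hk y => INVS.iter_sum A hA hc k hk y⟩
      have h5 := hc γ hγ
      unfold Pool.Agent.N142.CD.FOU.hh at h5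
      have e : ∀ c : ZMod N, (ZMod.stdAddChar c : ℂ) =
          Complex.exp (2 * Real.pi * Complex.I * (c.val : ℂ) / (N : ℂ)) := by
        intro c
        rw [ZMod.stdAddChar_apply, ZMod.toCircle_apply]
      have h6 : ∑ a ∈ A, Complex.exp (2 * Real.pi * Complex.I * ((γ * a).val : ℂ) / (N : ℂ)) =
          ∑ a ∈ A, (Pool.Agent.N142.CD.ψ (γ * a) : ℂ) :=
        Finset.sum_congr rfl fun a _ => (e _).symm
      rw [h6]
      exact h5
    · refine INVS.card_lower A η hA fun y => h1 N A K η hA hK hη hη1 hAA y fun γ hγ => ?_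
      obtain ⟨V, h5, h6, h7⟩ := hr γ (fun h => hγ (by rw [h, zero_mul]))
      refine ⟨V, h5, h6, le_trans ?_ (hD.trans h7)⟩
      refine mul_le_mul_of_nonneg_right e1 ?_
      have h8 : 0 ≤ logDens2 A := by
        have h9 : Real.log 2 ≤ logDens2 A := hx
        linarith
      exact add_nonneg h8 (sq_nonneg _)
    · have hx4 : 0 ≤ INVS.lx A ^ 4 := pow_nonneg (by linarith) 4
      have hD' : 145 * C₂ * INVS.lx A ^ 4 ≤ D :=
        (mul_le_mul_of_nonneg_right e2 hx4).trans hD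
      have hall : ∀ y : ZMod N, ∃ a₁ ∈ A, ∃ a₂ ∈ A, ∃ a₃ ∈ A, ∃ a₄ ∈ A,
          y = a₁ + a₂ - a₃ - a₄ := fun y => (h2 N A hA).2 y fun γ hγ => by
        obtain ⟨V, h5, h6, h7⟩ := hr γ (fun h => hγ (by rw [h, zero_mul]))
        refine ⟨V, h5, h6, le_trans ?_ (hD'.trans h7)⟩
        nlinarith
      refine ⟨Set.eq_univ_of_forall fun y => hall y, fun y => INVS.four_sum A ?_ y⟩
      have h8 := (h2 N A hA).1 (1 / 4) (by norm_num) (by norm_num) fun γ hγ => by
        obtain ⟨V, h5, h6, h7⟩ := hr γ hγ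
        refine ⟨V, h5, h6, le_trans ?_ (hD'.trans h7)⟩
        have h9 := INVS.lw_quarter A hA
        nlinarith
      have hN0 : (0 : ℝ) < N := by exact_mod_cast hN
      linarith
  · intro N hN A g m hA hm hg hgA
    have : NeZero N := ⟨hN.ne'⟩
    obtain ⟨h5, h6⟩ := h3 N A g m hA hm hg hgA
    have hd := hdiv N (fun d => m.totient ^ m.totient < d)
      (fun d e _ hde h => lt_of_lt_of_le h hde) hN
    have hx : 0 ≤ logDens2 A ^ 4 := by
      have h9 : Real.log 2 ≤ logDens2 A := INVS.lx_ge A hA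
      have := Real.log_two_gt_d9
      exact pow_nonneg (by linarith) 4
    refine ⟨fun η hη hη1 hq hw => ?_, fun hq hw => ?_, fun N₁ hq hw => ?_⟩
    · refine h5 η hη hη1 (hd hq) (le_trans ?_ hw)
      exact mul_le_mul_of_nonneg_right e3 (sq_nonneg _)
    · refine Set.eq_univ_of_forall fun y => ?_
      have h7 := h6 1 (fun d hdN => by
        rcases hd hq d hdN with h | h
        · left; rw [h]
        · right; exact h) (le_trans (mul_le_mul_of_nonneg_right e3 hx) hw) y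
      rw [Nat.cast_one, one_mul] at h7
      exact h7
    · have h7 := h6 N₁ hq (le_trans (mul_le_mul_of_nonneg_right e3 hx) hw)
      exact ⟨h7, hconcl N A N₁ hA h7⟩
  · intro N hN A b hA hb hcop hbA
    have : NeZero N := ⟨hN.ne'⟩
    obtain ⟨h5, h6⟩ := h4 N A b hA hb hcop hbA
    have hlb : 0 ≤ Real.log b := Real.log_natCast_nonneg b
    have hx : 0 ≤ logDens2 A ^ 4 := by
      have h9 : Real.log 2 ≤ logDens2 A := INVS.lx_ge A hA
      have := Real.log_two_gt_d9
      exact pow_nonneg (by linarith) 4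
    have hmono : ∀ (w : ℝ) (d e : ℕ), 0 < d → d ≤ e → w ≤ Real.log d → w ≤ Real.log e := by
      intro w d e hd hde h
      exact h.trans (Real.log_le_log (by exact_mod_cast hd) (by exact_mod_cast hde))
    refine ⟨fun η hη hη1 hq => ?_, fun hq => ?_, fun N₁ hq => ?_⟩
    · refine h5 η hη hη1 fun d hdN => ?_
      rcases hdiv N (fun d => C * weight A η * Real.log b ≤ Real.log d) (hmono _) hN hq d hdN with
        h | h
      · left; exact h
      · right
        refine le_trans (mul_le_mul_of_nonneg_right ?_ hlb) h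
        exact mul_le_mul_of_nonneg_right e4 (sq_nonneg _)
    · refine Set.eq_univ_of_forall fun y => ?_
      have h7 := h6 1 (fun d hdN => by
        rcases hdiv N (fun d => C * logDens2 A ^ 4 * Real.log b ≤ Real.log d) (hmono _) hN hq d hdN
          with h | h
        · left; rw [h]
        · right
          refine le_trans (mul_le_mul_of_nonneg_right ?_ hlb) h
          exact mul_le_mul_of_nonneg_right e4 hx) y
      rw [Nat.cast_one, one_mul] at h7
      exact h7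
    · have h7 := h6 N₁ fun d hdN => by
        rcases hq d hdN with h | h
        · left; exact h
        · right
          refine le_trans (mul_le_mul_of_nonneg_right ?_ hlb) h
          exact mul_le_mul_of_nonneg_right e4 hx
      exact ⟨h7, hconcl N A N₁ hA h7⟩

end Pool.Agent.Results.MP_169871_nt.DilationInvariant
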