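import Pool.Agent.Run7.h322.LE.Lower
import Pool.Agent.Run7.h322.LE.Robust

/-!
# Q1 for sets of large additive energy

Let `A ⊆ ℤ/N` have density `α ≤ 1/2` and `x = log (1/α)`. Let `E(A, B)` be the number of the solutions of
`a₁ + b₁ = a₂ + b₂` with `a₁, a₂ ∈ A`, `b₁, b₂ ∈ B`. If `E(A, B) ≥ (|A||B|)^(3/2) / K` for some nonempty set `B` (for
example `E(A, A) ≥ |A|³ / K`), then there is a Bohr set with at most `C (x + log⁵ (2K)) / log (2 + x)` frequencies and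
radius at least `1 / (C x)` every element of which has at least `|A|³ / (2⁵⁶ K⁴⁶)` representations `a₁ + a₂ - a₃ - a₄`.
This is best possible for `log⁵ (2K) ≤ C x` up to the constant: every Bohr set of radius `ε ≤ 1` whose elements have at
least `|A|³ / M` representations has at least `(x - log M) / log (2 / ε)` frequencies.

So the conclusion of Q1 holds as soon as `E(A', B) ≥ (|A'||B|)^(3/2) / K` with `log⁵ (2K) ≤ D x log (2 + x)` for a part `A'`
of `A` of density at least `α ^ D` and some nonempty set `B`.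

The proof: by Cauchy-Schwarz `E(A, A) ≥ |A|³ / K²`; by the Balog-Szemerédi-Gowers theorem (starting library `H217R3`)
`A` has a part of density at least `1 / (8 K²)` in `A` whose doubling is at most `2⁴⁴ K⁴⁰`. For a set of small doubling
the proof of the starting theorem `ModerateDoubling` (`Pool/Agent/N142/CD`) is repeated with the set of the popular sums in
place of `A + A` (files `PopStm`, `PopAP`, `PopComb`, `PopFin2`, `PopFin3`); this gives the representations. The radius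
does not suffer, because one may always take `K² ≤ 1/α`.
-/

set_option autoImplicit false

namespace Pool.Agent.Results.MP_169871_nt.LargeEnergy

open scoped Pointwise

/-- The Bohr set `B(Γ, ε) = {x ∈ ℤ/N : ‖γ x / N‖ ≤ ε for all γ ∈ Γ}`; the norm is the distance to the nearest
integer. -/
def bohr {N : ℕ} (Γ : Finset (ZMod N)) (ε : ℝ) : Set (ZMod N) :=
  {x | ∀ γ ∈ Γ, |((γ * x).val : ℝ) / (N : ℝ) - ((round (((γ * x).val : ℝ) / (N : ℝ)) : ℤ) : ℝ)| ≤ ε}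

/-- The set `2A - 2A`. -/
def twoAMinusTwoA {N : ℕ} (A : Finset (ZMod N)) : Set (ZMod N) :=
  {x | ∃ a₁ ∈ A, ∃ a₂ ∈ A, ∃ a₃ ∈ A, ∃ a₄ ∈ A, x = a₁ + a₂ - a₃ - a₄}

/-- `log (1/α)` for the density `α = |A| / N` -/
noncomputable def logDens {N : ℕ} (A : Finset (ZMod N)) : ℝ := Real.log ((N : ℝ) / (A.card : ℝ))

/-- The additive energy `E(A, B)`: the number of the quadruples `(a₁, a₂, b₁, b₂) ∈ A × A × B × B` with
`a₁ + b₁ = a₂ + b₂`. -/
def energy {N : ℕ} (A B : Finset (ZMod N)) : ℕ :=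
  (((A ×ˢ A) ×ˢ (B ×ˢ B)).filter (fun q => q.1.1 + q.2.1 = q.1.2 + q.2.2)).card

/-- The number of the representations `y = a₁ + a₂ - a₃ - a₄` with `a₁, a₂, a₃, a₄ ∈ A`. -/
def reps {N : ℕ} (A : Finset (ZMod N)) (y : ZMod N) : ℕ :=
  (((A ×ˢ A) ×ˢ (A ×ˢ A)).filter (fun q => y = q.1.1 + q.1.2 - q.2.1 - q.2.2)).card

theorem bohr_sub {N : ℕ} [NeZero N] {A A' : Finset (ZMod N)} (hA'A : A' ⊆ A) (hA' : A'.Nonempty) (c : ℝ)
    (y : ZMod N) (h : (A'.card : ℝ) ^ 3 ≤ c * (Run7.h322.LE.RR A' y : ℝ)) : y ∈ twoAMinusTwoA A := by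
  have ha : (0 : ℝ) < A'.card := by exact_mod_cast hA'.card_pos
  have h0 : 0 < Run7.h322.LE.RR A' y := by
    rcases Nat.eq_zero_or_pos (Run7.h322.LE.RR A' y) with h1 | h1
    · rw [h1] at h
      simp only [Nat.cast_zero, mul_zero] at h
      have : 0 < (A'.card : ℝ) ^ 3 := by positivity
      linarith
    · exact h1
  obtain ⟨a, ha, b, hb, c, hc, d, hd, hy⟩ := Run7.h322.LE.exists_of_RR A' y h0
  exact ⟨a, hA'A ha, b, hA'A hb, c, hA'A hc, d, hA'A hd, hy⟩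

theorem part_facts {N : ℕ} (hN : 0 < N) {A A' : Finset (ZMod N)} (hA : A.Nonempty)
    (hα : (A.card : ℝ) / (N : ℝ) ≤ 1 / 2) (hA'A : A' ⊆ A) (hA' : A'.Nonempty) (D K : ℝ) (hD : 1 ≤ D)
    (hL : Real.log (2 * K) ^ 5 ≤ D * (logDens A * Real.log (2 + logDens A))) :
    (A'.card : ℝ) / (N : ℝ) ≤ 1 / 2 ∧
      Real.log (2 * K) ^ 5 ≤ D * (logDens A' * Real.log (2 + logDens A')) := by
  have hn : (0 : ℝ) < N := by exact_mod_cast hN
  have hba : (A'.card : ℝ) ≤ A.card := by exact_mod_cast Finset.card_le_card hA'A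
  refine ⟨(div_le_div_of_nonneg_right hba hn.le).trans hα, hL.trans ?_⟩
  have hx : 0 < logDens A := lt_of_lt_of_le (Real.log_pos (by norm_num)) (Run7.h322.LE.log_two_le hN hA hα)
  have hxx : logDens A ≤ logDens A' := Run7.h322.LE.logDens_mono hN hA'A hA'
  have hl : 0 < Real.log (2 + logDens A) := Real.log_pos (by linarith)
  have hll : Real.log (2 + logDens A) ≤ Real.log (2 + logDens A') := Real.log_le_log (by linarith) (by linarith)
  exact mul_le_mul_of_nonneg_left (mul_le_mul hxx hll hl.le (by linarith)) (by linarith)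

/-- **Q1 for sets of large additive energy.** (1) a Bohr set of popular elements of `2A - 2A` for sets with
`E(A, B) ≥ (|A||B|)^(3/2) / K`; (2) a lower bound for the number of the frequencies of such Bohr sets; (3) the
conclusion of Q1 for all sets `A` with a part `A'` (for example `A' = A`) of density at least `α ^ D` and
`E(A', B) ≥ (|A'||B|)^(3/2) / K` for a nonempty set `B`, where `log⁵ (2K) ≤ D log (1/α) log (2 + log (1/α))`. -/
theorem result :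
    (∃ C : ℝ, 1 ≤ C ∧ ∀ (N : ℕ), 0 < N → ∀ (A B : Finset (ZMod N)) (K : ℝ), A.Nonempty → B.Nonempty →
      (A.card : ℝ) / (N : ℝ) ≤ 1 / 2 → 1 ≤ K → ((A.card : ℝ) * B.card) ^ 3 ≤ K ^ 2 * (energy A B : ℝ) ^ 2 →
      ∃ (Γ : Finset (ZMod N)) (ε : ℝ), 0 < ε ∧
        (Γ.card : ℝ) ≤ C * ((logDens A + Real.log (2 * K) ^ 5) / Real.log (2 + logDens A)) ∧
        1 / C / logDens A ≤ ε ∧ bohr Γ ε ⊆ twoAMinusTwoA A ∧
        ∀ y ∈ bohr Γ ε, (A.card : ℝ) ^ 3 ≤ 2 ^ 56 * K ^ 46 * (reps A y : ℝ)) ∧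
    (∀ (N : ℕ), 0 < N → ∀ (A : Finset (ZMod N)) (M : ℝ), A.Nonempty → 0 < M →
      ∀ (Γ : Finset (ZMod N)) (ε : ℝ), 0 < ε → ε ≤ 1 →
      (∀ y ∈ bohr Γ ε, (A.card : ℝ) ^ 3 ≤ M * (reps A y : ℝ)) →
      logDens A - Real.log M ≤ Γ.card * Real.log (2 / ε)) ∧
    (∀ D : ℝ, 1 ≤ D → ∃ C : ℝ, 1 ≤ C ∧ ∀ (N : ℕ), 0 < N → ∀ (A A' B : Finset (ZMod N)) (K : ℝ), A.Nonempty →
      (A.card : ℝ) / (N : ℝ) ≤ 1 / 2 → A' ⊆ A → A'.Nonempty → logDens A' ≤ D * logDens A → B.Nonempty → 1 ≤ K →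
      ((A'.card : ℝ) * B.card) ^ 3 ≤ K ^ 2 * (energy A' B : ℝ) ^ 2 →
      Real.log (2 * K) ^ 5 ≤ D * (logDens A * Real.log (2 + logDens A)) →
      ∃ (Γ : Finset (ZMod N)) (ε : ℝ), 0 < ε ∧ (Γ.card : ℝ) ≤ C * logDens A ∧
        1 / C / logDens A ≤ ε ∧ bohr Γ ε ⊆ twoAMinusTwoA A) := by
  refine ⟨?_, ?_, fun D hD => ?_⟩
  · obtain ⟨C, hC, h⟩ := Run7.h322.LE.main1
    refine ⟨C, hC, fun N hN A B K hA hB hα hK hE => ?_⟩
    have : NeZero N := ⟨hN.ne'⟩
    obtain ⟨Γ, ε, h1, h2, h3, h4⟩ := h N hN A K hA hα hK (Run7.h322.LE.energy_self_of A B hB K hE)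
    exact ⟨Γ, ε, h1, h2, h3, fun y hy => bohr_sub (Finset.Subset.refl A) hA _ y (h4 y hy), h4⟩
  · intro N hN A M hA hM Γ ε hε hε1 h
    have : NeZero N := ⟨hN.ne'⟩
    exact Run7.h322.LE.lowerP A hA M hM Γ ε hε hε1 h
  · obtain ⟨C, hC, h⟩ := Run7.h322.LE.main2 D hD
    refine ⟨C, hC, fun N hN A A' B K hA hα hA'A hA' hd hB hK hE hL => ?_⟩
    have : NeZero N := ⟨hN.ne'⟩
    obtain ⟨hα', hL'⟩ := part_facts hN hA hα hA'A hA' D K hD hL
    obtain ⟨Γ, ε, h1, h2, h3, h4⟩ := h N hN (logDens A) A' K hA' hα' hd hK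
      (Run7.h322.LE.energy_self_of A' B hB K hE) hL'
    exact ⟨Γ, ε, h1, h2, h3, fun y hy => bohr_sub hA'A hA' _ y (h4 y hy)⟩

end Pool.Agent.Results.MP_169871_nt.LargeEnergy
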