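import Pool.Agent.Run7.h671.RS.Sub

/-!
# Bohr sets in `2A - 2A` for random and quasirandom subsets of structured sets

For a nonempty `A ⊆ ℤ/N` of density `α ≤ 1/2` write `ℓ = log (1/α) = ell A`, and let `Q1For C A` be the conclusion
of the question for `A` with the constant `C`: there is a Bohr set `B(Γ, ε) ⊆ 2A - 2A` with `|Γ| ≤ C ℓ` and
`ε ≥ 1/(C ℓ)`. A nonempty set `S ⊆ ℤ/N` is `(D, ℓ)`-structured if it contains a translate of a proper coset
progression `P` of dimension at most `D ℓ` with `|P| ≥ e^(-D ℓ) |S|` (for example, if it is such a translate), or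
has additive energy `|S|³/K` with `log⁵ (2K) ≤ D ℓ log (2 + ℓ)`.

* Random subsets: choose each element of `S` with probability `δ`, independently; the relative density `δ ∈ (0, 1]`
  is arbitrary. With probability at least `1 - 2 N^(-1/8)` the set `A` of the chosen elements satisfies `Q1For C A`,
  unless it is empty, or has density more than `1/2`, or `S` is not `(D, ℓ_A)`-structured; `C` depends only on `D`.
* Quasirandom subsets of progressions: let `S` be a translate of a proper coset progression of dimension `d ≤ D ℓ_A`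
  and of density at least `exp (- D ℓ_A log (2 + ℓ_A))`. If `A` contains a set `A'` for which the additive energy
  of the function `1_{A'} - δ 1_S` is at most `(343^(-d)/16)⁴ δ⁴ |S|³`, then `A` satisfies `Q1For C A`.
-/

set_option autoImplicit false

namespace Pool.Agent.Results.MP_169871_nt.RandomSubsets

open Finset Run7.h671.RS

/-- `S` contains a translate `t + P` of a proper coset progression `P` of dimension at most `D ℓ` with
`log (|S|/|P|) ≤ D ℓ`, or `S` has additive energy `|S|³/K` with `log⁵ (2K) ≤ D ℓ log (2 + ℓ)`. -/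
def Structured {N : ℕ} (D : ℝ) (S : Finset (ZMod N)) (l : ℝ) : Prop :=
  (∃ (d : ℕ) (H : AddSubgroup (ZMod N)) (a : Fin d → ZMod N) (L : Fin d → ℕ) (t : ZMod N),
    Proper H a L ∧ (∀ x ∈ cosetProg H a L, t + x ∈ S) ∧ (d : ℝ) ≤ D * l ∧
    Real.log ((S.card : ℝ) / ((cosetProg H a L).ncard : ℝ)) ≤ D * l) ∨
  Real.log (2 * ((S.card : ℝ) ^ 3 / (S.addEnergy S : ℝ))) ^ 5 ≤ D * l * Real.log (2 + l)

/-- The probability of `A` if each element of `S` is chosen with probability `δ`, independently. -/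
noncomputable def prob {N : ℕ} (δ : ℝ) (S A : Finset (ZMod N)) : ℝ := δ ^ A.card * (1 - δ) ^ (S \ A).card

theorem ell_ge {N : ℕ} [NeZero N] (A : Finset (ZMod N)) (hA : A.Nonempty) (hα : (A.card : ℝ) / (N : ℝ) ≤ 1 / 2) :
    69 / 100 ≤ ell A ∧ 9 / 10 ≤ Real.log (2 + ell A) := by
  obtain ⟨h5, h6⟩ := ell_facts (NeZero.pos N) A hA hα
  have hlog2 := Real.log_two_gt_d9
  unfold ell
  exact ⟨by linarith, h6⟩

open scoped Classical in
/-- Random subsets of structured sets. -/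
theorem random_structured (D : ℝ) (hD : 0 < D) : ∃ C₀ : ℝ, 0 < C₀ ∧ ∀ C : ℝ, C₀ ≤ C → ∀ (N : ℕ) [NeZero N]
    (S : Finset (ZMod N)), S.Nonempty → ∀ δ : ℝ, 0 < δ → δ ≤ 1 →
    ∑ A ∈ S.powerset with
        (A.Nonempty ∧ (A.card : ℝ) / (N : ℝ) ≤ 1 / 2 ∧ Structured D S (ell A) ∧ ¬ Q1For C A),
      prob δ S A ≤ 2 * (N : ℝ) ^ (-(1 / 8 : ℝ)) := by
  obtain ⟨C₁, hC₁, h₁⟩ := en_random (D + 1) (by linarith)
  refine ⟨C₁ + (370 * (36 + 7 * (9 * D)) + 740 * (2 * (D + 1)) + 26), by positivity, ?_⟩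
  intro C hC N _ S hS δ hδ hδ1
  have hN : (0 : ℝ) < N := by exact_mod_cast NeZero.pos N
  have hprob : ∀ A, 0 ≤ prob δ S A := fun A =>
    mul_nonneg (pow_nonneg hδ.le _) (pow_nonneg (by linarith) _)
  have hrpow : 0 ≤ (N : ℝ) ^ (-(1 / 8 : ℝ)) := Real.rpow_nonneg hN.le _
  -- the first alternative
  have p1 : ∑ A ∈ S.powerset with (A.Nonempty ∧ (A.card : ℝ) / (N : ℝ) ≤ 1 / 2 ∧
      (∃ (d : ℕ) (H : AddSubgroup (ZMod N)) (a : Fin d → ZMod N) (L : Fin d → ℕ) (t : ZMod N),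
        Proper H a L ∧ (∀ x ∈ cosetProg H a L, t + x ∈ S) ∧ (d : ℝ) ≤ D * ell A ∧
        Real.log ((S.card : ℝ) / ((cosetProg H a L).ncard : ℝ)) ≤ D * ell A) ∧ ¬ Q1For C A),
      prob δ S A ≤ (N : ℝ) ^ (-(1 / 8 : ℝ)) := by
    obtain ⟨F, hF⟩ : ∃ F : Finset (Finset (ZMod N)), F = S.powerset.filter fun A =>
        (A.Nonempty ∧ (A.card : ℝ) / (N : ℝ) ≤ 1 / 2 ∧
      (∃ (d : ℕ) (H : AddSubgroup (ZMod N)) (a : Fin d → ZMod N) (L : Fin d → ℕ) (t : ZMod N),
        Proper H a L ∧ (∀ x ∈ cosetProg H a L, t + x ∈ S) ∧ (d : ℝ) ≤ D * ell A ∧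
        Real.log ((S.card : ℝ) / ((cosetProg H a L).ncard : ℝ)) ≤ D * ell A) ∧ ¬ Q1For C A) := ⟨_, rfl⟩
    rw [← hF]
    rcases F.eq_empty_or_nonempty with h0 | hne
    · rw [h0, sum_empty]
      exact hrpow
    · obtain ⟨A₀, hA₀, hmin⟩ := exists_min_image F ell hne
      have hA₀' := hA₀
      rw [hF, mem_filter] at hA₀'
      obtain ⟨_, _, _, ⟨d, H, a, L, t, g1, g2, g3, g4⟩, _⟩ := hA₀'
      have key := sub_random D hD S t H a L g1 g2 δ hδ hδ1 C (by linarith)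
        (fun A => A ∈ F) (fun A hAS hA => by
          have h1 := hmin A hA
          rw [hF, mem_filter] at hA
          obtain ⟨_, q1, q2, _, q4⟩ := hA
          exact ⟨q1, q2, g3.trans (by gcongr), g4.trans (by gcongr), q4⟩)
      refine le_trans (le_of_eq ?_) key
      refine sum_congr ?_ fun A _ => rfl
      ext A
      rw [mem_filter]
      constructor
      · intro hA
        have hA' := hA
        rw [hF, mem_filter] at hA'
        exact ⟨hA'.1, hA⟩
      · intro hA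
        exact hA.2
  -- the second alternative
  have p2 : ∑ A ∈ S.powerset with (A.Nonempty ∧ (A.card : ℝ) / (N : ℝ) ≤ 1 / 2 ∧
      Real.log (2 * ((S.card : ℝ) ^ 3 / (S.addEnergy S : ℝ))) ^ 5 ≤ D * ell A * Real.log (2 + ell A) ∧
      ¬ Q1For C A),
      prob δ S A ≤ (N : ℝ) ^ (-(1 / 8 : ℝ)) := by
    have hE0 : (0 : ℝ) < (S.addEnergy S : ℝ) := by exact_mod_cast addEnergy_pos hS hS
    have hE : (S.addEnergy S : ℝ) ≤ (S.card : ℝ) ^ 3 := by exact_mod_cast energy_self_le S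
    refine h₁ N S ((S.card : ℝ) ^ 3 / (S.addEnergy S : ℝ)) hS ?_ ?_ δ hδ hδ1 C (by linarith) _ ?_
    · rw [le_div_iff₀ hE0]
      linarith
    · rw [div_mul_cancel₀ _ hE0.ne']
    · rintro A ⟨hA, hα, hK5, hQ⟩
      obtain ⟨h5, h6⟩ := ell_ge A hA hα
      refine ⟨hA, hα, hK5.trans ?_, hQ⟩
      unfold ell at h5 h6 ⊢
      rw [mul_assoc]
      gcongr
      linarith
  calc ∑ A ∈ S.powerset with
        (A.Nonempty ∧ (A.card : ℝ) / (N : ℝ) ≤ 1 / 2 ∧ Structured D S (ell A) ∧ ¬ Q1For C A), prob δ S A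
      ≤ (∑ A ∈ S.powerset with (A.Nonempty ∧ (A.card : ℝ) / (N : ℝ) ≤ 1 / 2 ∧
      (∃ (d : ℕ) (H : AddSubgroup (ZMod N)) (a : Fin d → ZMod N) (L : Fin d → ℕ) (t : ZMod N),
        Proper H a L ∧ (∀ x ∈ cosetProg H a L, t + x ∈ S) ∧ (d : ℝ) ≤ D * ell A ∧
        Real.log ((S.card : ℝ) / ((cosetProg H a L).ncard : ℝ)) ≤ D * ell A) ∧ ¬ Q1For C A),
      prob δ S A) + ∑ A ∈ S.powerset with (A.Nonempty ∧ (A.card : ℝ) / (N : ℝ) ≤ 1 / 2 ∧
      Real.log (2 * ((S.card : ℝ) ^ 3 / (S.addEnergy S : ℝ))) ^ 5 ≤ D * ell A * Real.log (2 + ell A) ∧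
      ¬ Q1For C A),
      prob δ S A := by
        rw [sum_filter, sum_filter, sum_filter, ← sum_add_distrib]
        refine sum_le_sum fun A _ => ?_
        have h0 := hprob A
        by_cases hb : A.Nonempty ∧ (A.card : ℝ) / (N : ℝ) ≤ 1 / 2 ∧ Structured D S (ell A) ∧ ¬ Q1For C A
        · rw [if_pos hb]
          obtain ⟨b1, b2, b3, b4⟩ := hb
          rcases b3 with b3 | b3
          · rw [if_pos ⟨b1, b2, b3, b4⟩]
            split_ifs <;> linarith
          · rw [if_pos (c := A.Nonempty ∧ (A.card : ℝ) / (N : ℝ) ≤ 1 / 2 ∧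
              Real.log (2 * ((S.card : ℝ) ^ 3 / (S.addEnergy S : ℝ))) ^ 5 ≤
                D * ell A * Real.log (2 + ell A) ∧ ¬ Q1For C A) ⟨b1, b2, b3, b4⟩]
            split_ifs <;> linarith
        · rw [if_neg hb]
          split_ifs <;> linarith
    _ ≤ 2 * (N : ℝ) ^ (-(1 / 8 : ℝ)) := by linarith

open scoped Classical in
theorem result : ∀ D : ℝ, 0 < D → ∃ C : ℝ, 0 < C ∧ ∀ (N : ℕ) [NeZero N] (S : Finset (ZMod N)), S.Nonempty →
    ∀ δ : ℝ, 0 < δ → δ ≤ 1 →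
    -- random subsets of structured sets: the probability of the exceptional sets
    ∑ A ∈ S.powerset with
        (A.Nonempty ∧ (A.card : ℝ) / (N : ℝ) ≤ 1 / 2 ∧ Structured D S (ell A) ∧ ¬ Q1For C A),
      prob δ S A ≤ 2 * (N : ℝ) ^ (-(1 / 8 : ℝ)) ∧
    -- quasirandom subsets of progressions
    ∀ (d : ℕ) (H : AddSubgroup (ZMod N)) (a : Fin d → ZMod N) (L : Fin d → ℕ) (t : ZMod N), Proper H a L →
      (∀ x, x ∈ S ↔ x - t ∈ cosetProg H a L) →
      ∀ A A' : Finset (ZMod N), A' ⊆ A → A.Nonempty → (A.card : ℝ) / (N : ℝ) ≤ 1 / 2 →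
        (d : ℝ) ≤ D * ell A →
        Real.log ((N : ℝ) / (S.card : ℝ)) ≤ D * ell A * Real.log (2 + ell A) →
        En (fun x => ind A' x - δ * ind S x) ≤ ((1 / 343) ^ d / 16) ^ 4 * (δ ^ 4 * (S.card : ℝ) ^ 3) →
        Q1For C A := by
  intro D hD
  obtain ⟨C₀, hC₀, h₀⟩ := random_structured D hD
  refine ⟨C₀ + (740 * D + 26), by positivity, ?_⟩
  intro N _ S hS δ hδ hδ1
  refine ⟨h₀ _ (by nlinarith) N S hS δ hδ hδ1, ?_⟩
  intro d H a L t hprop hSt A A' hA' hA hα hd hden hEn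
  exact prog_det D hD S t H a L hprop hSt A A' hA' δ hδ hEn hA hα hd hden _ (by linarith)

end Pool.Agent.Results.MP_169871_nt.RandomSubsets
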