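import Pool.Agent.Run7.h322.LE.Main
import Pool.Agent.Run7.h322.LE.Transfer

/-!
# Q1 for sets that are pseudorandom relative to a set of large additive energy

For `A ⊆ ℤ/N` let `r_A(z)` be the number of the pairs `(a, b) ∈ A × A` with `a + b = z`. Let `P` be a nonempty set of
density at most `1/2` with at least `|P|³ / K` additive quadruples and let `x' = log (N/|P|)`. Then there is one Bohr set
with at most `C (x' + log⁵ (2K)) / log (2 + x')` frequencies and radius at least `1 / (C x')` which is contained in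
`2A - 2A` for ALL the sets `A` (subsets of `P` or not, of any size) whose sums are distributed like those of `P`, namely
`‖ r_A/|A|² - r_P/|P|² ‖² ≤ (2K)^(-116) / |P|` in `L²`; and every element of it has the expected number
`≥ |A|⁴ / ((2K)⁵⁸ |P|)` of representations `a₁ + a₂ - a₃ - a₄`. (For example one may think of a random subset `A` of `P`;
the energy of `A` itself can be much smaller than `|A|³ / K`.)

So the conclusion of Q1 holds for every set `A` of density `α ≤ 1/2` with a part `A'` of any size which is pseudorandom in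
this sense relative to such a set `P` with `x' ≤ D log (1/α)` and `log⁵ (2K) ≤ D x' log (2 + x')`.

The proof: the popular form of the theorem for sets of large energy (`LE/Main`, see the sibling file `LargeEnergy`) gives
a Bohr set all of whose elements have at least `|P|³ / (2⁵⁶ K²³)` representations `p₁ + p₂ - p₃ - p₄`; their number is
the correlation of `r_P` with its shift, which is continuous in `L²` (`LE/Transfer`).
-/

set_option autoImplicit false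

namespace Pool.Agent.Results.MP_169871_nt.RelativePseudorandom

open scoped Pointwise

/-- The Bohr set `B(Γ, ε) = {x ∈ ℤ/N : ‖γ x / N‖ ≤ ε for all γ ∈ Γ}`; the norm is the distance to the nearest
integer. -/
def bohr {N : ℕ} (Γ : Finset (ZMod N)) (ε : ℝ) : Set (ZMod N) :=
  {x | ∀ γ ∈ Γ, |((γ * x).val : ℝ) / (N : ℝ) - ((round (((γ * x).val : ℝ) / (N : ℝ)) : ℤ) : ℝ)| ≤ ε}

/-- The set `2A - 2A`. -/
def twoAMinusTwoA {N : ℕ} (A : Finset (ZMod N)) : Set (ZMod N) :=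
  {x | ∃ a₁ ∈ A, ∃ a₂ ∈ A, ∃ a₃ ∈ A, ∃ a₄ ∈ A, x = a₁ + a₂ - a₃ - a₄}

/-- `log (1/α)` for the density `α = |A| / N` -/
noncomputable def logDens {N : ℕ} (A : Finset (ZMod N)) : ℝ := Real.log ((N : ℝ) / (A.card : ℝ))

/-- The additive energy `E(P, P)`: the number of the quadruples `(p₁, p₂, p₃, p₄) ∈ P⁴` with `p₁ + p₃ = p₂ + p₄`. -/
def energy {N : ℕ} (P : Finset (ZMod N)) : ℕ :=
  (((P ×ˢ P) ×ˢ (P ×ˢ P)).filter (fun q => q.1.1 + q.2.1 = q.1.2 + q.2.2)).card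

/-- The number of the representations `y = a₁ + a₂ - a₃ - a₄` with `a₁, a₂, a₃, a₄ ∈ A`. -/
def reps {N : ℕ} (A : Finset (ZMod N)) (y : ZMod N) : ℕ :=
  (((A ×ˢ A) ×ˢ (A ×ˢ A)).filter (fun q => y = q.1.1 + q.1.2 - q.2.1 - q.2.2)).card

/-- The number `r_A(z)` of the pairs `(a, b) ∈ A × A` with `a + b = z`. -/
def sumReps {N : ℕ} (A : Finset (ZMod N)) (z : ZMod N) : ℕ :=
  ((A ×ˢ A).filter (fun p => p.1 + p.2 = z)).card

/-- The square of the `L²` distance of `r_A/|A|²` and `r_P/|P|²` (the sum over the other `z` vanishes). -/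
noncomputable def sumDist {N : ℕ} (A P : Finset (ZMod N)) : ℝ :=
  ∑ z ∈ (A + A) ∪ (P + P), ((sumReps A z : ℝ) / (A.card : ℝ) ^ 2 - (sumReps P z : ℝ) / (P.card : ℝ) ^ 2) ^ 2

theorem sumDist_eq {N : ℕ} [NeZero N] (A P : Finset (ZMod N)) (hA : A.Nonempty) (hP : P.Nonempty) :
    sumDist A P * ((A.card : ℝ) ^ 4 * (P.card : ℝ) ^ 4) =
    ∑ z : ZMod N, ((P.card : ℝ) ^ 2 * (Run7.h322.LE.rs A z : ℝ) -
      (A.card : ℝ) ^ 2 * (Run7.h322.LE.rs P z : ℝ)) ^ 2 := by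
  have ha : (A.card : ℝ) ≠ 0 := by exact_mod_cast hA.card_pos.ne'
  have hp : (P.card : ℝ) ≠ 0 := by exact_mod_cast hP.card_pos.ne'
  have h1 : sumDist A P = ∑ z : ZMod N,
      ((sumReps A z : ℝ) / (A.card : ℝ) ^ 2 - (sumReps P z : ℝ) / (P.card : ℝ) ^ 2) ^ 2 := by
    unfold sumDist
    refine Finset.sum_subset (Finset.subset_univ _) fun z _ hz => ?_
    rw [Finset.mem_union, not_or] at hz
    have h : ∀ B : Finset (ZMod N), z ∉ B + B → sumReps B z = 0 := by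
      intro B hB
      unfold sumReps
      rw [Finset.card_eq_zero, Finset.filter_eq_empty_iff]
      intro p hp he
      rw [Finset.mem_product] at hp
      exact hB (he ▸ Finset.add_mem_add hp.1 hp.2)
    rw [h A hz.1, h P hz.2]
    simp
  rw [h1, Finset.sum_mul]
  refine Finset.sum_congr rfl fun z _ => ?_
  have e1 : sumReps A z = Run7.h322.LE.rs A z := rfl
  have e2 : sumReps P z = Run7.h322.LE.rs P z := rfl
  rw [e1, e2]
  field_simp

/-- at one point -/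
theorem at_point {N : ℕ} [NeZero N] (A P : Finset (ZMod N)) (hA : A.Nonempty) (hP : P.Nonempty) (K : ℝ) (hK : 1 ≤ K)
    (hdist : (2 * K) ^ 116 * P.card * sumDist A P ≤ 1) (y : ZMod N)
    (h : (P.card : ℝ) ^ 3 ≤ 2 ^ 56 * Real.sqrt K ^ 46 * (Run7.h322.LE.RR P y : ℝ)) :
    y ∈ twoAMinusTwoA A ∧ (A.card : ℝ) ^ 4 ≤ (2 * K) ^ 58 * P.card * (reps A y : ℝ) := by
  have ha : (0 : ℝ) < A.card := by exact_mod_cast hA.card_pos
  have hp : (0 : ℝ) < P.card := by exact_mod_cast hP.card_pos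
  have hs2 : Real.sqrt K ^ 2 = K := Real.sq_sqrt (by linarith)
  have h5 : (P.card : ℝ) ^ 3 ≤ 2 ^ 56 * K ^ 23 * (Run7.h322.LE.RR P y : ℝ) := by
    rw [show Real.sqrt K ^ 46 = (Real.sqrt K ^ 2) ^ 23 by ring, hs2] at h
    exact h
  have hK23 : (1 : ℝ) ≤ K ^ 23 := one_le_pow₀ hK
  have hM : (1 : ℝ) ≤ 2 ^ 56 * K ^ 23 := by nlinarith
  have hK70 : (1 : ℝ) ≤ K ^ 70 := one_le_pow₀ hK
  have hK46 : (0 : ℝ) ≤ 2 ^ 116 * K ^ 46 := by positivity
  have hnn : 0 ≤ sumDist A P := Finset.sum_nonneg fun z _ => sq_nonneg _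
  have h6 : (A.card : ℝ) ^ 4 ≤ 4 * (2 ^ 56 * K ^ 23) * P.card * (Run7.h322.LE.RR A y : ℝ) := by
    refine Run7.h322.LE2.transfer A P hA hP y (2 ^ 56 * K ^ 23) hM h5 ?_
    rw [← sumDist_eq A P hA hP]
    have h7 : 16 * (2 ^ 56 * K ^ 23) ^ 2 ≤ (2 * K) ^ 116 := by
      calc (16 : ℝ) * (2 ^ 56 * K ^ 23) ^ 2 = 2 ^ 116 * K ^ 46 * 1 := by ring
        _ ≤ 2 ^ 116 * K ^ 46 * K ^ 70 := mul_le_mul_of_nonneg_left hK70 hK46
        _ = (2 * K) ^ 116 := by ring
    have h8 : 16 * (2 ^ 56 * K ^ 23) ^ 2 * P.card * sumDist A P ≤ 1 := by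
      refine le_trans ?_ hdist
      exact mul_le_mul_of_nonneg_right (mul_le_mul_of_nonneg_right h7 hp.le) hnn
    calc 16 * (2 ^ 56 * K ^ 23) ^ 2 * (sumDist A P * ((A.card : ℝ) ^ 4 * (P.card : ℝ) ^ 4))
        = (16 * (2 ^ 56 * K ^ 23) ^ 2 * P.card * sumDist A P) * ((A.card : ℝ) ^ 4 * (P.card : ℝ) ^ 3) := by ring
      _ ≤ 1 * ((A.card : ℝ) ^ 4 * (P.card : ℝ) ^ 3) := mul_le_mul_of_nonneg_right h8 (by positivity)
      _ = _ := one_mul _
  have hR0 : (0 : ℝ) ≤ (Run7.h322.LE.RR A y : ℝ) := Nat.cast_nonneg _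
  refine ⟨?_, ?_⟩
  · have h9 : 0 < Run7.h322.LE.RR A y := by
      rcases Nat.eq_zero_or_pos (Run7.h322.LE.RR A y) with h1 | h1
      · rw [h1] at h6
        simp only [Nat.cast_zero, mul_zero] at h6
        have : 0 < (A.card : ℝ) ^ 4 := by positivity
        linarith
      · exact h1
    exact Run7.h322.LE2.exists_of_RR A y h9
  · refine h6.trans ?_
    change _ ≤ (2 * K) ^ 58 * P.card * (Run7.h322.LE.RR A y : ℝ)
    refine mul_le_mul_of_nonneg_right ?_ hR0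
    refine mul_le_mul_of_nonneg_right ?_ hp.le
    have hK35 : (1 : ℝ) ≤ K ^ 35 := one_le_pow₀ hK
    have hK58 : (0 : ℝ) ≤ 2 ^ 58 * K ^ 23 := by positivity
    calc (4 : ℝ) * (2 ^ 56 * K ^ 23) = 2 ^ 58 * K ^ 23 * 1 := by ring
      _ ≤ 2 ^ 58 * K ^ 23 * K ^ 35 := mul_le_mul_of_nonneg_left hK35 hK58
      _ = (2 * K) ^ 58 := by ring

theorem sqrt_facts (K : ℝ) (hK : 1 ≤ K) : 1 ≤ Real.sqrt K ∧ Real.sqrt K ^ 2 = K ∧
    0 ≤ Real.log (2 * Real.sqrt K) ∧ Real.log (2 * Real.sqrt K) ≤ Real.log (2 * K) := by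
  have hs1 : 1 ≤ Real.sqrt K := Real.one_le_sqrt.2 hK
  have hs2 : Real.sqrt K ^ 2 = K := Real.sq_sqrt (by linarith)
  have hsK : Real.sqrt K ≤ K := by
    calc Real.sqrt K = Real.sqrt K * 1 := (mul_one _).symm
      _ ≤ Real.sqrt K * Real.sqrt K := mul_le_mul_of_nonneg_left hs1 (by linarith)
      _ = K := by rw [← sq, hs2]
  exact ⟨hs1, hs2, Real.log_nonneg (by linarith), Real.log_le_log (by linarith) (by linarith)⟩

/-- **Sets that are pseudorandom relative to a set of large energy.** (1) for a set `P` of energy at least `|P|³ / K` one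
Bohr set is contained in `2A - 2A` for all the sets `A` whose sums are distributed like those of `P`; (2) the conclusion
of Q1 for all sets `A` with a part `A'` of any size that is pseudorandom in this sense relative to such a set `P` with
`log (N/|P|) ≤ D log (1/α)` and `log⁵ (2K) ≤ D log (N/|P|) log (2 + log (N/|P|))`. -/
theorem result :
    (∃ C : ℝ, 1 ≤ C ∧ ∀ (N : ℕ), 0 < N → ∀ (P : Finset (ZMod N)) (K : ℝ), P.Nonempty →
      (P.card : ℝ) / (N : ℝ) ≤ 1 / 2 → 1 ≤ K → (P.card : ℝ) ^ 3 ≤ K * (energy P : ℝ) →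
      ∃ (Γ : Finset (ZMod N)) (ε : ℝ), 0 < ε ∧
        (Γ.card : ℝ) ≤ C * ((logDens P + Real.log (2 * K) ^ 5) / Real.log (2 + logDens P)) ∧
        1 / C / logDens P ≤ ε ∧
        ∀ A : Finset (ZMod N), A.Nonempty → (2 * K) ^ 116 * P.card * sumDist A P ≤ 1 →
          bohr Γ ε ⊆ twoAMinusTwoA A ∧
          ∀ y ∈ bohr Γ ε, (A.card : ℝ) ^ 4 ≤ (2 * K) ^ 58 * P.card * (reps A y : ℝ)) ∧
    (∀ D : ℝ, 1 ≤ D → ∃ C : ℝ, 1 ≤ C ∧ ∀ (N : ℕ), 0 < N → ∀ (A A' P : Finset (ZMod N)) (K : ℝ), A.Nonempty →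
      (A.card : ℝ) / (N : ℝ) ≤ 1 / 2 → A' ⊆ A → A'.Nonempty → P.Nonempty → (P.card : ℝ) / (N : ℝ) ≤ 1 / 2 →
      logDens P ≤ D * logDens A → 1 ≤ K → (P.card : ℝ) ^ 3 ≤ K * (energy P : ℝ) →
      Real.log (2 * K) ^ 5 ≤ D * (logDens P * Real.log (2 + logDens P)) →
      (2 * K) ^ 116 * P.card * sumDist A' P ≤ 1 →
      ∃ (Γ : Finset (ZMod N)) (ε : ℝ), 0 < ε ∧ (Γ.card : ℝ) ≤ C * logDens A ∧
        1 / C / logDens A ≤ ε ∧ bohr Γ ε ⊆ twoAMinusTwoA A) := by
  refine ⟨?_, fun D hD => ?_⟩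
  · obtain ⟨C, hC, h⟩ := Run7.h322.LE.main1
    refine ⟨C, hC, fun N hN P K hP hα hK hE => ?_⟩
    have : NeZero N := ⟨hN.ne'⟩
    obtain ⟨hs1, hs2, hs3, hs4⟩ := sqrt_facts K hK
    obtain ⟨Γ, ε, h1, h2, h3, h4⟩ := h N hN P (Real.sqrt K) hP hα hs1 (by rw [hs2]; exact hE)
    refine ⟨Γ, ε, h1, h2.trans ?_, h3, fun A hA hdist => ?_⟩
    · have hx : 0 < logDens P := lt_of_lt_of_le (Real.log_pos (by norm_num)) (Run7.h322.LE.log_two_le hN hP hα)
      have hl : 0 < Real.log (2 + logDens P) := Real.log_pos (by linarith)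
      refine mul_le_mul_of_nonneg_left ?_ (by linarith)
      refine div_le_div_of_nonneg_right ?_ hl.le
      have := pow_le_pow_left₀ hs3 hs4 5
      change logDens P + Real.log (2 * Real.sqrt K) ^ 5 ≤ _
      linarith
    · exact ⟨fun y hy => (at_point A P hA hP K hK hdist y (h4 y hy)).1,
        fun y hy => (at_point A P hA hP K hK hdist y (h4 y hy)).2⟩
  · obtain ⟨C, hC, h⟩ := Run7.h322.LE.main2 D hD
    refine ⟨C, hC, fun N hN A A' P K hA hα hA'A hA' hP hαP hd hK hE hL hdist => ?_⟩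
    have : NeZero N := ⟨hN.ne'⟩
    obtain ⟨hs1, hs2, hs3, hs4⟩ := sqrt_facts K hK
    obtain ⟨Γ, ε, h1, h2, h3, h4⟩ := h N hN (logDens A) P (Real.sqrt K) hP hαP hd hs1
      (by rw [hs2]; exact hE) ((pow_le_pow_left₀ hs3 hs4 5).trans hL)
    refine ⟨Γ, ε, h1, h2, h3, fun y hy => ?_⟩
    obtain ⟨a, ha, b, hb, c, hc, d, hd, he⟩ := (at_point A' P hA' hP K hK hdist y (h4 y hy)).1
    exact ⟨a, hA'A ha, b, hA'A hb, c, hA'A hc, d, hA'A hd, he⟩

end Pool.Agent.Results.MP_169871_nt.RelativePseudorandom
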